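import Pool.Agent.helper41.HFE.Spec

/-! # Row hfe:GE3 (MP_3221a1_ag, project HFE): the bad numbers are finitely many -/

set_option autoImplicit false

open Polynomial Module Pool.Agent.HFN

namespace Pool.Agent.HFE

noncomputable section

theorem GE3_scale (k a b c d u w : ℂ) (hk : k ≠ 0) (h : k * a * u * w + k * b * w + k * c * u + k * d = 0) :
    a * u * w + b * w + c * u + d = 0 := by
  have h1 : k * (a * u * w + b * w + c * u + d) = 0 := by linear_combination h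
  exact (mul_eq_zero.1 h1).resolve_left hk

theorem GE3 (hGE1 : GE1_stmt) (hGE2 : GE2_stmt) : GE3_stmt := by
  intro n z
  have key : ∀ T : Fin 3 → Fin n × Fin n, {t : ℂ | ∃ a b c d : ℂ, a * d - b * c ≠ 0 ∧ ¬ (a = 0 ∧ d = 0 ∧ b + c = 0) ∧
      (Function.Injective (fun k => z (T k).1) ∧ ∀ k, a * z (T k).1 * z (T k).2 + b * z (T k).2 + c * z (T k).1 + d = 0) ∧
      ((∃ m, a * t * z m + b * z m + c * t + d = 0) ∨ (∃ m, a * z m * t + b * t + c * z m + d = 0) ∨ a * t * t + b * t + c * t + d = 0)}.Finite := by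
    intro T
    by_cases hex : ∃ a b c d : ℂ, a * d - b * c ≠ 0 ∧ ¬ (a = 0 ∧ d = 0 ∧ b + c = 0) ∧
      (Function.Injective (fun k => z (T k).1) ∧ ∀ k, a * z (T k).1 * z (T k).2 + b * z (T k).2 + c * z (T k).1 + d = 0)
    · obtain ⟨a, b, c, d, h1, h2, h3, h4⟩ := hex
      obtain ⟨g1, g2, g3⟩ := hGE2 a b c d h1 h2
      refine Set.Finite.subset ((Set.finite_iUnion fun m : Fin n => g1 (z m)).union
        ((Set.finite_iUnion fun m : Fin n => g2 (z m)).union g3)) ?_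
      rintro t ⟨a', b', c', d', i1, -, ⟨-, i4⟩, i5⟩
      obtain ⟨k, hk, e1, e2, e3, e4⟩ := hGE1 a b c d a' b' c' d' (fun k => z (T k).1) (fun k => z (T k).2) h1 i1 h3 h4 i4
      rw [e1, e2, e3, e4] at i5
      rcases i5 with ⟨m, hm⟩ | ⟨m, hm⟩ | hm
      · exact Or.inl (Set.mem_iUnion.2 ⟨m, GE3_scale k a b c d t (z m) hk hm⟩)
      · exact Or.inr (Or.inl (Set.mem_iUnion.2 ⟨m, GE3_scale k a b c d (z m) t hk hm⟩))
      · exact Or.inr (Or.inr (GE3_scale k a b c d t t hk hm))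
    · refine Set.Finite.subset Set.finite_empty ?_
      rintro t ⟨a, b, c, d, i1, i2, i3, -⟩
      exact absurd ⟨a, b, c, d, i1, i2, i3⟩ hex
  refine Set.Finite.subset (Set.finite_iUnion key) ?_
  rintro t ⟨a, b, c, d, i1, i2, ⟨T, i3⟩, i4⟩
  exact Set.mem_iUnion.2 ⟨T, a, b, c, d, i1, i2, i3, i4⟩

end

end Pool.Agent.HFE
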