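import Pool.Agent.helper41.HFE.Spec

/-! # Row hfe:STA (MP_3221a1_ag, project HFE): the inequality for the bidegree of the curve -/

set_option autoImplicit false

open Polynomial Module Pool.Agent.HFN

namespace Pool.Agent.HFE

noncomputable section

theorem STA_le (J : Ideal AA) (f : AA) (hf : f ≠ 0) (s t : ℕ) (h : ∀ g : AA, g ∈ J → g ∈ V s t → f ∣ g) :
    hd J s t ≤ (s - dX f + 1) * (t - dY f + 1) ∧ (¬ (dX f ≤ s ∧ dY f ≤ t) → hd J s t = 0) := by
  constructor
  · unfold hd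
    rw [← finrank_V (s - dX f) (t - dY f)]
    have h1 : (V s t ⊓ J.restrictScalars ℂ : Submodule ℂ AA) ≤ (V (s - dX f) (t - dY f)).map (LinearMap.mulLeft ℂ f) := by
      rintro g ⟨hg1, hg2⟩
      obtain ⟨k, hk⟩ := h g hg2 hg1
      refine ⟨k, ?_, ?_⟩
      · refine mem_V_of_mul hf ?_
        rw [← hk]
        exact hg1
      · rw [LinearMap.mulLeft_apply, hk]
    refine (Submodule.finrank_mono h1).trans ?_
    exact Submodule.finrank_map_le _ _
  · intro hn
    unfold hd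
    have h1 : (V s t ⊓ J.restrictScalars ℂ : Submodule ℂ AA) = ⊥ := by
      rw [eq_bot_iff]
      rintro g ⟨hg1, hg2⟩
      rw [Submodule.mem_bot]
      by_contra hg0
      obtain ⟨k, hk⟩ := h g hg2 hg1
      have hk0 : k ≠ 0 := by
        rintro rfl
        exact hg0 (by rw [hk, mul_zero])
      have h2 : f * k ∈ V s t := by
        rw [← hk]
        exact hg1
      rw [mul_mem_V_iff hf hk0] at h2
      exact hn ⟨by omega, by omega⟩
    rw [h1, finrank_bot]

theorem STA (hSYM : SYM_stmt) (hDIV : DIV_stmt) : STA_stmt := by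
  intro φ i j r f hFc hcod hφ hV hM
  obtain ⟨a, ha⟩ : ∃ a : ℕ, a = dX f := ⟨_, rfl⟩
  obtain ⟨b, hb⟩ : ∃ b : ℕ, b = dY f := ⟨_, rfl⟩
  have hd1 := hM.deg
  rw [mem_V, ← ha, ← hb] at hd1
  obtain ⟨ha1, hb1⟩ := hd1
  have hdiv : ∀ s t : ℕ, s ≤ i + 1 → t ≤ j + 1 → a + s < i + 2 → ∀ g : AA, g ∈ An φ → g ∈ V s t → f ∣ g := by
    intro s t hs ht hlt g hg hg2
    by_contra hcon
    have h1 := (hDIV φ i j ((i + 1) / 2) ((j + 1) / 2) f hFc hφ hV hM (by omega) (by omega) g s t hg hg2 hs ht hcon).1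
    rw [← ha] at h1
    omega
  have h1 := STA_le (An φ) f hM.ne a b (hdiv a b (by omega) (by omega) (by omega))
  have h2 := STA_le (An φ) f hM.ne (i - a) (j - b) (hdiv (i - a) (j - b) (by omega) (by omega) (by omega))
  have h3 := hSYM φ i j hFc hV a b (by omega) (by omega)
  rw [← ha, ← hb] at h1 h2
  obtain ⟨u, hu⟩ : ∃ u : ℕ, i + 1 = 2 * a + u := ⟨i + 1 - 2 * a, by omega⟩
  obtain ⟨v, hv⟩ : ∃ v : ℕ, j + 1 = 2 * b + v := ⟨j + 1 - 2 * b, by omega⟩
  have h4 : hd (An φ) a b ≤ 1 := by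
    have := h1.1
    simpa using this
  have h5 : hd (An φ) (i - a) (j - b) ≤ u * v := by
    by_cases hc : a ≤ i - a ∧ b ≤ j - b
    · refine h2.1.trans ?_
      have e1 : i - a - a + 1 = u := by omega
      have e2 : j - b - b + 1 = v := by omega
      rw [e1, e2]
    · rw [h2.2 hc]
      exact Nat.zero_le _
  have e3 : i - a + 1 = a + u := by omega
  have e4 : j - b + 1 = b + v := by omega
  rw [e3, e4] at h3
  unfold CD
  rw [← ha, ← hb]
  have e5 : i + 2 - a = a + u + 1 := by omega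
  have e6 : j + 2 - b = b + v + 1 := by omega
  rw [e5, e6]
  refine ⟨by omega, by omega, ?_⟩
  nlinarith

end

end Pool.Agent.HFE
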